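import Pool.Agent.Y132.AH.HDefs
import Pool.Agent.Y132.FG.Defs

/-!
# Hodge classes on all products with powers: definitions
-/

open CategoryTheory AlgebraicGeometry

universe u v

namespace Pool.Agent.Y132.HF

open Pool.Agent.Y132.AH

section Alg

variable {K : Type} [Field K] {A : Type} [Ring A] [Algebra K A]
  {gr : ℕ → Submodule K A} {n : ℕ} {tr : A →ₗ[K] K} {C : ℕ → Set A}

/-- `U` is a rational sub-Hodge structure: it is stable under the automorphisms of the coefficient
field (that is, spanned by rational classes) and under the operators which multiply the component of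
type `(p, q)` by `z ^ p * w ^ q` (that is, the sum of its intersections with the subspaces of pure
type). -/
structure SubHodge (Ψ : HodgeAlg gr n tr C) (U : Submodule K A) : Prop where
  coeff : ∀ σ, ∀ a ∈ U, Ψ.coeff σ a ∈ U
  torus : ∀ z w : Kˣ, ∀ a ∈ U,
    scaleOp Ψ.isHodgeDec.isInternal (fun i => (z : K) ^ i.1 * (w : K) ^ i.2) a ∈ U

/-- Every rational sub-Hodge structure has a complement which is a rational sub-Hodge structure. (For
smooth projective varieties this follows from the existence of polarisations.) -/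
def SplitHodge (Ψ : HodgeAlg gr n tr C) : Prop :=
  ∀ U : Submodule K A, SubHodge Ψ U → ∃ U' : Submodule K A, SubHodge Ψ U' ∧ IsCompl U U'

end Alg

open Pool.Agent.H914 Pool.Agent.H914.VarClass Pool.Agent.H914.VarClass.Obj
  Pool.Agent.H914.WeilCohomology Pool.Agent.H281R3.HT Pool.Agent.W552

variable {k : Type u} [Field k] {𝒱 : VarClass k} {ops : CycleOps 𝒱}
  {W : WeilCohomology.{u, 0} ops}

/-- `p` is a projection from the product for the list `L` to the product for the list `L'`, which
is obtained from `L` by omitting some entries. -/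
inductive IsPr {ι : Type} (X : ι → 𝒱.Obj) (Z : 𝒱.Obj) :
    (L L' : List ι) → (prodList X Z L ⟶ prodList X Z L') → Prop
  | base : IsPr X Z [] [] (𝟙 Z)
  | keep (i : ι) {L L' : List ι} {p : prodList X Z L ⟶ prodList X Z L'} : IsPr X Z L L' p →
      IsPr X Z (i :: L) (i :: L') (FG.idProd (X i) p)
  | skip (i : ι) {L L' : List ι} {p : prodList X Z L ⟶ prodList X Z L'} : IsPr X Z L L' p →
      IsPr X Z (i :: L) L' (FG.sndComp (X i) p)

/-- The class of degree `2 j` on the product for the list `L` is a polynomial with rational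
coefficients in pull-backs, by projections, of Hodge classes on products of `Z` with at most `N` of
the factors. -/
inductive Gen (Ψ : HodgeData W) {ι : Type} (X : ι → 𝒱.Obj) (Z : 𝒱.Obj) (N : ℕ) (L : List ι) :
    ℕ → W.H (prodList X Z L) → Prop
  | pull {L' : List ι} {p : prodList X Z L ⟶ prodList X Z L'} {j : ℕ}
      {c : W.H (prodList X Z L')} : IsPr X Z L L' p → L'.length ≤ N →
      IsHodge Ψ (prodList X Z L') j c → Gen Ψ X Z N L j (W.map p c)
  | add {j : ℕ} {a b : W.H (prodList X Z L)} : Gen Ψ X Z N L j a → Gen Ψ X Z N L j b →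
      Gen Ψ X Z N L j (a + b)
  | smul (q : ℚ) {j : ℕ} {a : W.H (prodList X Z L)} : Gen Ψ X Z N L j a →
      Gen Ψ X Z N L j ((q : W.K) • a)
  | mul {i j : ℕ} {a b : W.H (prodList X Z L)} : Gen Ψ X Z N L i a → Gen Ψ X Z N L j b →
      Gen Ψ X Z N L (i + j) (a * b)

end Pool.Agent.Y132.HF
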