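import Pool.Agent.Y132.AH.HCls
import Pool.Agent.Y132.HF.Defs

/-!
# Semisimplicity of the action of the Mumford-Tate group
-/

open CategoryTheory AlgebraicGeometry

set_option linter.unusedSectionVars false

universe u v

namespace Pool.Agent.Y132.HF

open Pool.Agent.Y132.AH

section soc

variable {K A : Type*} [Field K] [AddCommGroup A] [Module K A]

/-- stable subspaces -/
def Stb (G : Set (A →ₗ[K] A)) (U : Submodule K A) : Prop := ∀ f ∈ G, ∀ a ∈ U, f a ∈ U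

/-- minimal stable subspaces -/
def Mini (G : Set (A →ₗ[K] A)) (m : Submodule K A) : Prop :=
  Stb G m ∧ m ≠ ⊥ ∧ ∀ U, Stb G U → U ≤ m → U ≠ ⊥ → m ≤ U

/-- the socle -/
def soc (G : Set (A →ₗ[K] A)) : Submodule K A := sSup {m | Mini G m}

variable {G : Set (A →ₗ[K] A)}

theorem Stb.sup {U V : Submodule K A} (hU : Stb G U) (hV : Stb G V) : Stb G (U ⊔ V) := by
  intro f hf a ha
  obtain ⟨u, hu, v, hv, rfl⟩ := Submodule.mem_sup.1 ha
  rw [map_add]
  exact Submodule.mem_sup.2 ⟨f u, hU f hf u hu, f v, hV f hf v hv, rfl⟩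

theorem Stb.inf {U V : Submodule K A} (hU : Stb G U) (hV : Stb G V) : Stb G (U ⊓ V) :=
  fun f hf a ha => ⟨hU f hf a ha.1, hV f hf a ha.2⟩

theorem stb_soc : Stb G (soc G) := by
  intro f hf
  change soc G ≤ (soc G).comap f
  refine sSup_le fun m hm a ha => ?_
  exact (le_sSup hm : m ≤ soc G) (hm.1 f hf a ha)

theorem exists_mini [FiniteDimensional K A] {U : Submodule K A} (hU : Stb G U) (h0 : U ≠ ⊥) :
    ∃ m ≤ U, Mini G m := by
  obtain ⟨m, ⟨h1, h2, h3⟩, h4⟩ := (wellFounded_lt (α := Submodule K A)).has_min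
    {V | Stb G V ∧ V ≠ ⊥ ∧ V ≤ U} ⟨U, hU, h0, le_rfl⟩
  refine ⟨m, h3, h1, h2, fun V hV hVm hV0 => ?_⟩
  by_contra hcon
  exact h4 V ⟨hV, hV0, hVm.trans h3⟩ (lt_of_le_not_ge hVm hcon)

theorem exists_compl [FiniteDimensional K A] (hsoc : soc G = ⊤) {U : Submodule K A}
    (hU : Stb G U) : ∃ U', Stb G U' ∧ IsCompl U U' := by
  obtain ⟨U', ⟨h1, h2⟩, h3⟩ := (wellFounded_gt (α := Submodule K A)).has_min
    {V | Stb G V ∧ Disjoint U V} ⟨⊥, fun f _ a ha => by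
      rw [Submodule.mem_bot] at ha ⊢
      rw [ha, map_zero], disjoint_bot_right⟩
  refine ⟨U', h1, h2, ?_⟩
  rw [codisjoint_iff, eq_top_iff, ← hsoc]
  refine sSup_le fun m hm => ?_
  by_contra hcon
  have h4 : m ⊓ (U ⊔ U') = ⊥ := by
    by_contra h5
    exact hcon ((hm.2.2 _ (hm.1.inf (hU.sup h1)) inf_le_left h5).trans inf_le_right)
  have h5 : Disjoint U (U' ⊔ m) :=
    Disjoint.disjoint_sup_right_of_disjoint_sup_left h2 (disjoint_iff.2 (by rw [inf_comm]; exact h4))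
  have h6 : ¬U' < U' ⊔ m := h3 (U' ⊔ m) ⟨h1.sup hm.1, h5⟩
  have h7 : m ≤ U' := by
    by_contra h8
    exact h6 (lt_of_le_not_ge le_sup_left fun h9 => h8 (le_sup_right.trans h9))
  exact hcon (h7.trans le_sup_right)

/-- A stable complement of the socle is zero. -/
theorem soc_top [FiniteDimensional K A] {U' : Submodule K A} (hU' : Stb G U')
    (h : IsCompl (soc G) U') : soc G = ⊤ := by
  have h0 : U' = ⊥ := by
    by_contra h1
    obtain ⟨m, hm, hmm⟩ := exists_mini hU' h1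
    have h2 : m ≤ soc G ⊓ U' := le_inf (le_sSup hmm) hm
    rw [h.inf_eq_bot] at h2
    exact hmm.2.1 (le_bot_iff.1 h2)
  have h1 := h.sup_eq_top
  rwa [h0, sup_bot_eq] at h1

/-- The socle is stable under the operators which commute with `G`. -/
theorem soc_comm {f : A →ₗ[K] A} (hf : ∀ g ∈ G, ∀ a, f (g a) = g (f a)) {a : A}
    (ha : a ∈ soc G) : f a ∈ soc G := by
  have h1 : soc G ≤ (soc G).comap f := by
    refine sSup_le fun m hm => ?_
    rw [← Submodule.map_le_iff_le_comap]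
    have hst : Stb G (m.map f) := by
      rintro g hg _ ⟨b, hb, rfl⟩
      exact ⟨g b, hm.1 g hg b hb, hf g hg b⟩
    by_cases h0 : m.map f = ⊥
    · rw [h0]
      exact bot_le
    refine le_sSup ⟨hst, h0, fun U hU hle hU0 => ?_⟩
    have h2 : Stb G (m ⊓ U.comap f) := fun g hg b hb =>
      ⟨hm.1 g hg b hb.1, by
        change f (g b) ∈ U
        rw [hf g hg]
        exact hU g hg _ hb.2⟩
    have h3 : m ⊓ U.comap f ≠ ⊥ := by
      obtain ⟨u, hu, hu0⟩ := (Submodule.ne_bot_iff _).1 hU0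
      obtain ⟨b, hb, rfl⟩ := hle hu
      refine (Submodule.ne_bot_iff _).2 ⟨b, ⟨hb, hu⟩, ?_⟩
      rintro rfl
      exact hu0 (map_zero f)
    have h4 := hm.2.2 _ h2 inf_le_left h3
    rw [Submodule.map_le_iff_le_comap]
    exact h4.trans inf_le_right
  exact h1 ha

end soc

section semi

variable {K : Type} [Field K] {A : Type} [Ring A] [Algebra K A]
  {gr : ℕ → Submodule K A} {n : ℕ} {C : ℕ → Set A} {H : ℕ × ℕ → Submodule K A}
  {tr : A →ₗ[K] K} {γ : RingAut K →* RingAut A}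

/-- the operators -/
def ops' (h : IsHodgeDec gr n C H) (hγ : IsCoeffAct gr tr C γ) : Set (A →ₗ[K] A) :=
  Set.range fun g => (ctor h hγ g).toLinearMap

theorem ctor_conj (h : IsHodgeDec gr n C H) (hγ : IsCoeffAct gr tr C γ) (σ τ : RingAut K) (z : Kˣ)
    (a : A) : γ σ (ctor h hγ (τ, z) a) = ctor h hγ (σ * τ, z) (γ σ a) := by
  rw [ctor_apply, ctor_apply]
  have h1 : γ (σ * τ)⁻¹ (γ σ a) = γ τ⁻¹ a := by
    rw [← RingAut.mul_apply, ← map_mul, mul_inv_rev, inv_mul_cancel_right]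
  rw [h1, map_mul, RingAut.mul_apply]

/-- the conjugate subspace -/
def cnj (hγ : IsCoeffAct gr tr C γ) (σ : RingAut K) (U : Submodule K A) : Submodule K A where
  carrier := {a | γ σ⁻¹ a ∈ U}
  zero_mem' := by
    change γ σ⁻¹ 0 ∈ U
    rw [map_zero]
    exact Submodule.zero_mem _
  add_mem' {a b} ha hb := by
    change γ σ⁻¹ (a + b) ∈ U
    rw [map_add]
    exact Submodule.add_mem _ ha hb
  smul_mem' r a ha := by
    change γ σ⁻¹ (r • a) ∈ U
    rw [hγ.smul]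
    exact Submodule.smul_mem _ _ ha

theorem mem_cnj (hγ : IsCoeffAct gr tr C γ) {σ : RingAut K} {U : Submodule K A} {a : A} :
    a ∈ cnj hγ σ U ↔ γ σ⁻¹ a ∈ U := Iff.rfl

theorem cnj_cnj (hγ : IsCoeffAct gr tr C γ) (σ : RingAut K) (U : Submodule K A) :
    cnj hγ σ (cnj hγ σ⁻¹ U) = U := by
  ext a
  rw [mem_cnj, mem_cnj, ← RingAut.mul_apply, ← map_mul, inv_inv, mul_inv_cancel, map_one,
    RingAut.one_apply]

theorem cnj_mono (hγ : IsCoeffAct gr tr C γ) (σ : RingAut K) {U V : Submodule K A} (h : U ≤ V) :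
    cnj hγ σ U ≤ cnj hγ σ V := fun _ ha => h ha

theorem stb_cnj (h : IsHodgeDec gr n C H) (hγ : IsCoeffAct gr tr C γ) (σ : RingAut K)
    {U : Submodule K A} (hU : Stb (ops' h hγ) U) : Stb (ops' h hγ) (cnj hγ σ U) := by
  rintro _ ⟨⟨τ, z⟩, rfl⟩ a ha
  rw [mem_cnj] at ha ⊢
  change γ σ⁻¹ (ctor h hγ (τ, z) a) ∈ U
  rw [ctor_conj]
  exact hU _ ⟨(σ⁻¹ * τ, z), rfl⟩ _ ha

theorem cnj_ne_bot (hγ : IsCoeffAct gr tr C γ) (σ : RingAut K) {U : Submodule K A} (h : U ≠ ⊥) :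
    cnj hγ σ U ≠ ⊥ := by
  obtain ⟨u, hu, hu0⟩ := (Submodule.ne_bot_iff _).1 h
  refine (Submodule.ne_bot_iff _).2 ⟨γ σ u, ?_, fun h0 => hu0 ?_⟩
  · rw [mem_cnj, ← RingAut.mul_apply, ← map_mul, inv_mul_cancel, map_one, RingAut.one_apply]
    exact hu
  · exact (γ σ).injective (by rw [h0, map_zero])

theorem mini_cnj (h : IsHodgeDec gr n C H) (hγ : IsCoeffAct gr tr C γ) (σ : RingAut K)
    {m : Submodule K A} (hm : Mini (ops' h hγ) m) : Mini (ops' h hγ) (cnj hγ σ m) := by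
  refine ⟨stb_cnj h hγ σ hm.1, cnj_ne_bot hγ σ hm.2.1, fun U hU hle hU0 => ?_⟩
  have e : cnj hγ σ⁻¹ (cnj hγ σ m) = m := by
    have := cnj_cnj hγ σ⁻¹ m
    rwa [inv_inv] at this
  have h1 := hm.2.2 (cnj hγ σ⁻¹ U) (stb_cnj h hγ _ hU) (by
    rw [← e]
    exact cnj_mono hγ _ hle) (cnj_ne_bot hγ _ hU0)
  rw [← cnj_cnj hγ σ U]
  exact cnj_mono hγ σ h1

theorem soc_coeff (h : IsHodgeDec gr n C H) (hγ : IsCoeffAct gr tr C γ) (σ : RingAut K) {a : A}
    (ha : a ∈ soc (ops' h hγ)) : γ σ a ∈ soc (ops' h hγ) := by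
  have h1 : soc (ops' h hγ) ≤ cnj hγ σ⁻¹ (soc (ops' h hγ)) := by
    refine sSup_le fun m hm b hb => ?_
    rw [mem_cnj, inv_inv]
    refine (le_sSup (mini_cnj h hγ σ hm) : cnj hγ σ m ≤ _) ?_
    rw [mem_cnj, ← RingAut.mul_apply, ← map_mul, inv_mul_cancel, map_one, RingAut.one_apply]
    exact hb
  have h2 := h1 ha
  rwa [mem_cnj, inv_inv] at h2

/-- The torus operators on classes of degree `d`. -/
theorem torus_gr (h : IsHodgeDec gr n C H) (hgr : DirectSum.IsInternal gr) (z w : Kˣ) {d : ℕ}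
    {a : A} (ha : a ∈ gr d) :
    scaleOp h.isInternal (fun i => (z : K) ^ i.1 * (w : K) ^ i.2) a =
      (w : K) ^ d • tor h ((z * w⁻¹ : Kˣ) : K) a := by
  refine ext_prj h.isInternal fun i => ?_
  rw [map_smul, tor, scaleOp_comm, scaleOp_comm]
  by_cases h0 : prj h.isInternal i a = 0
  · rw [h0, smul_zero, smul_zero, smul_zero]
  · have h1 : i.1 + i.2 = d := by
      by_contra hcon
      exact h0 (hodge_prj_zero h hgr ha hcon)
    rw [smul_smul]
    congr 1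
    have hw : (w : K) ^ i.1 * (((w⁻¹ : Kˣ) : K)) ^ i.1 = 1 := by
      rw [← mul_pow, Units.mul_inv, one_pow]
    rw [← h1, pow_add, Units.val_mul, mul_pow]
    calc (z : K) ^ i.1 * (w : K) ^ i.2
        = (w : K) ^ i.2 * (z : K) ^ i.1 * ((w : K) ^ i.1 * (((w⁻¹ : Kˣ) : K)) ^ i.1) := by
          rw [hw, mul_one, mul_comm]
      _ = _ := by ring

theorem stb_of_subHodge {Ψ : HodgeAlg gr n tr C} {U : Submodule K A} (hU : SubHodge Ψ U) :
    Stb (ops' Ψ.isHodgeDec Ψ.isCoeffAct) U := by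
  rintro _ ⟨⟨σ, z⟩, rfl⟩ a ha
  change ctor Ψ.isHodgeDec Ψ.isCoeffAct (σ, z) a ∈ U
  rw [ctor_apply]
  refine hU.coeff _ _ ?_
  have h1 := hU.torus z 1 _ (hU.coeff σ⁻¹ a ha)
  simpa [tor] using h1

theorem subHodge_soc (Ψ : HodgeAlg gr n tr C) (hgr : DirectSum.IsInternal gr) :
    SubHodge Ψ (soc (ops' Ψ.isHodgeDec Ψ.isCoeffAct)) := by
  have h := Ψ.isHodgeDec
  have hγ := Ψ.isCoeffAct
  refine ⟨fun σ a ha => soc_coeff _ _ σ ha, fun z w a ha => ?_⟩
  -- homogeneous components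
  have hp : ∀ d, prj hgr d a ∈ soc (ops' h hγ) := by
    intro d
    refine soc_comm (f := prj hgr d) ?_ ha
    rintro _ ⟨⟨σ, z⟩, rfl⟩ b
    change prj hgr d (ctor h hγ (σ, z) b) = ctor h hγ (σ, z) (prj hgr d b)
    have hc : ∀ e, ∀ b ∈ gr e, ctor h hγ (σ, z) b ∈ gr e := fun e b hb => by
      rw [ctor_apply]
      exact hγ.gr_mem _ _ _ (tor_gr h hgr _ (hγ.gr_mem _ _ _ hb))
    refine int_ind (p := fun b => prj hgr d (ctor h hγ (σ, z) b) =
      ctor h hγ (σ, z) (prj hgr d b)) hgr b (fun e b hb => ?_) (by simp) fun x y hx hy => ?_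
    · by_cases hed : e = d
      · subst hed
        rw [prj_same hgr hb, prj_same hgr (hc _ b hb)]
      · rw [prj_ne hgr hed hb, prj_ne hgr hed (hc _ b hb), map_zero]
    · rw [map_add, map_add, map_add, map_add, hx, hy]
  have hk : ∀ d, ∀ b ∈ gr d, b ∈ soc (ops' h hγ) →
      scaleOp h.isInternal (fun i => (z : K) ^ i.1 * (w : K) ^ i.2) b ∈ soc (ops' h hγ) := by
    intro d b hb hbs
    rw [torus_gr h hgr z w hb]
    refine Submodule.smul_mem _ _ ?_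
    have h1 := stb_soc (G := ops' h hγ) _ ⟨(1, z * w⁻¹), rfl⟩ b hbs
    change ctor h hγ (1, z * w⁻¹) b ∈ _ at h1
    rw [ctor_apply] at h1
    simpa using h1
  obtain ⟨t, ht⟩ := eq_sum_prj hgr a
  rw [ht t subset_rfl, map_sum]
  exact Submodule.sum_mem _ fun d _ => hk d _ (prj_mem hgr d a) (hp d)

theorem split_semisimple [FiniteDimensional K A] {Ψ : HodgeAlg gr n tr C}
    (hgr : DirectSum.IsInternal gr) (hΨ : SplitHodge Ψ) {U : Submodule K A}
    (hU : Stb (ops' Ψ.isHodgeDec Ψ.isCoeffAct) U) :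
    ∃ U', Stb (ops' Ψ.isHodgeDec Ψ.isCoeffAct) U' ∧ IsCompl U U' := by
  obtain ⟨V, hV, hc⟩ := hΨ _ (subHodge_soc Ψ hgr)
  exact exists_compl (soc_top (stb_of_subHodge hV) hc) hU

end semi

open Pool.Agent.H914 Pool.Agent.H914.VarClass Pool.Agent.H914.VarClass.Obj
  Pool.Agent.H914.WeilCohomology Pool.Agent.H281R3.HT Pool.Agent.W552 Pool.Agent.TH125.Gal

variable {k : Type u} [Field k] {𝒱 : VarClass k} {ops : CycleOps 𝒱}
  {W : WeilCohomology.{u, 0} ops} (Ψ : HodgeData W)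

/-- A subspace which is stable under a subgroup of finite index is stable under the
Mumford-Tate group. -/
theorem stb_of_index [IsAlgClosed W.K] {X : 𝒱.Obj} {U : Submodule W.K (W.H X)}
    {Δ : Subgroup (FreeGroup (RingAut W.K × W.Kˣ))} (hΔ : Δ.FiniteIndex)
    (hU : ∀ g ∈ Δ, ∀ a ∈ U, ract Ψ X g a ∈ U) :
    Stb (ops' (Ψ.isHodgeDec X) (Ψ.isCoeffAct X)) U := by
  rintro _ ⟨⟨σ, z⟩, rfl⟩ a ha
  change ctor (Ψ.isHodgeDec X) (Ψ.isCoeffAct X) (σ, z) a ∈ U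
  have hn : 0 < Δ.index.factorial := Nat.factorial_pos _
  obtain ⟨w, hw⟩ := IsAlgClosed.exists_pow_nat_eq (z : W.K) hn
  have hw0 : w ≠ 0 := by
    rintro rfl
    rw [zero_pow hn.ne'] at hw
    exact z.ne_zero hw.symm
  have hwz : (Units.mk0 w hw0) ^ Δ.index.factorial = z := Units.ext (by
    rw [Units.val_pow_eq_pow_val]
    exact hw)
  have h1 : FreeGroup.of (σ, Units.mk0 w hw0) ^ Δ.index.factorial ∈ Δ :=
    Subgroup.pow_mem_of_index_ne_zero_of_dvd hΔ.index_ne_zero _ fun m hm0 hm =>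
      Nat.dvd_factorial hm0 hm
  have h2 := hU _ h1 a ha
  rw [ract, map_pow, hact_of, ctor_pow, hwz] at h2
  exact h2

theorem ract_stb {X : 𝒱.Obj} {U : Submodule W.K (W.H X)}
    (hU : Stb (ops' (Ψ.isHodgeDec X) (Ψ.isCoeffAct X)) U)
    (g : FreeGroup (RingAut W.K × W.Kˣ)) (a : W.H X) (ha : a ∈ U) : ract Ψ X g a ∈ U := by
  refine hact_ind (Ψ.isHodgeDec X) (Ψ.isCoeffAct X) (p := fun ρ _ => ∀ a ∈ U, ρ a ∈ U)
    (fun a ha => ha) (fun g a ha => hU _ ⟨g, rfl⟩ a ha)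
    (fun a b _ _ ha hb c hc => ha _ (hb c hc)) g a ha

/-- **Semisimplicity.** -/
theorem semisimpleVar [IsAlgClosed W.K] {X : 𝒱.Obj} (h : SplitHodge (Ψ.on X)) :
    FG.SemisimpleVar (actv Ψ X) := by
  intro Δ hΔ U hU
  obtain ⟨U', h1, h2⟩ := split_semisimple (W.isInternal X) h (stb_of_index Ψ hΔ hU)
  exact ⟨U', fun g _ a ha => ract_stb Ψ h1 g a ha, h2⟩

end Pool.Agent.Y132.HF
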