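import Pool.Agent.Y132.AH.MT
import Pool.Agent.Y132.FG.Main
import Pool.Agent.Y132.HF.Semi

/-!
# The Hodge classes on all products with powers are finitely generated
-/

open CategoryTheory AlgebraicGeometry

set_option linter.unusedSectionVars false

universe u v

namespace Pool.Agent.Y132.HF

open Pool.Agent.Y132.AH Pool.Agent.H914 Pool.Agent.H914.VarClass Pool.Agent.H914.VarClass.Obj
  Pool.Agent.H914.WeilCohomology Pool.Agent.H281R3.HT Pool.Agent.W552 Pool.Agent.TH125.Gal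

variable {k : Type u} [Field k] {𝒱 : VarClass k} {ops : CycleOps 𝒱}
  {W : WeilCohomology.{u, 0} ops} (Ψ : HodgeData W) {ι : Type} (X : ι → 𝒱.Obj) (Z : 𝒱.Obj)

/-- the group -/
abbrev FGp (W : WeilCohomology.{u, 0} ops) : Type := FreeGroup (RingAut W.K × W.Kˣ)

/-- a variety with the action -/
noncomputable abbrev dg (Y : 𝒱.Obj) : Pool.Agent.Y132.EP.DG W (FGp W) :=
  ⟨actv Ψ Y, (actv_galois Ψ Y).gr_mem⟩

theorem isProdVar_actv (A B : 𝒱.Obj) :
    IsProdVar (actv Ψ A) (actv Ψ B) (actv Ψ (A.prod B)) :=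
  IsProdVar.mk _ (fun g a => hact_map Ψ _ g a) (fun g a => hact_map Ψ _ g a)

theorem prod_act_eq {A B : 𝒱.Obj}
    {υ : FG.ActOn W (FGp W) (A.prod B)}
    (h : IsProdVar (actv Ψ A) (actv Ψ B) ⟨A.prod B, υ⟩) : υ = ract Ψ (A.prod B) := by
  have h1 := Pool.Agent.Y132.EP.isProdVar_unique (A := dg Ψ A) (B := dg Ψ B) h
  have h2 := Pool.Agent.Y132.EP.isProdVar_unique (A := dg Ψ A) (B := dg Ψ B)
    (isProdVar_actv Ψ A B)
  rw [← h2] at h1
  injection h1

theorem isTower_fg (L : List ι) :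
    FG.IsTower (fun i => actv Ψ (X i)) (actv Ψ Z) L (actv Ψ (prodList X Z L)) := by
  induction L with
  | nil => exact FG.IsTower.nil
  | cons i L ih => exact FG.IsTower.cons i ih (isProdVar_actv Ψ _ _)

/-- all towers are of this form -/
theorem isTower_eq' {L : List ι} {Y : GVar W (FGp W)}
    (hY : FG.IsTower (fun i => actv Ψ (X i)) (actv Ψ Z) L Y) : Y = actv Ψ (prodList X Z L) := by
  induction L generalizing Y with
  | nil => cases hY; rfl
  | cons i L ih =>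
    cases hY with
    | cons _ h1 h2 =>
      have h3 := ih h1
      subst h3
      obtain ⟨υ, h4, h5⟩ := h2
      have h6 := prod_act_eq Ψ (IsProdVar.mk υ h4 h5)
      subst h6
      rfl

/-- The projections, with the lists of the indices. -/
inductive IsSub {W : WeilCohomology.{u, 0} ops} {Γ : Type} [Group Γ] {ι : Type}
    (X : ι → GVar W Γ) (Z : GVar W Γ) :
    (L L' : List ι) → (Y Y' : GVar W Γ) → (Y.X ⟶ Y'.X) → Prop
  | base : IsSub X Z [] [] Z Z (𝟙 Z.X)
  | keep (i : ι) {L L' : List ι} {Y Y' : GVar W Γ} {p : Y.X ⟶ Y'.X}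
      {υ : FG.ActOn W Γ ((X i).X.prod Y.X)} {υ' : FG.ActOn W Γ ((X i).X.prod Y'.X)} :
      IsSub X Z L L' Y Y' p → IsProdVar (X i) Y ⟨(X i).X.prod Y.X, υ⟩ →
      IsProdVar (X i) Y' ⟨(X i).X.prod Y'.X, υ'⟩ →
      IsSub X Z (i :: L) (i :: L') ⟨(X i).X.prod Y.X, υ⟩ ⟨(X i).X.prod Y'.X, υ'⟩
        (FG.idProd (X i).X p)
  | skip (i : ι) {L L' : List ι} {Y Y' : GVar W Γ} {p : Y.X ⟶ Y'.X}
      {υ : FG.ActOn W Γ ((X i).X.prod Y.X)} :
      IsSub X Z L L' Y Y' p → IsProdVar (X i) Y ⟨(X i).X.prod Y.X, υ⟩ →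
      IsSub X Z (i :: L) L' ⟨(X i).X.prod Y.X, υ⟩ Y' (FG.sndComp (X i).X p)

theorem isSub_pr {W : WeilCohomology.{u, 0} ops} {Γ : Type} [Group Γ]
    {X : ι → Pool.Agent.Y132.EP.DG W Γ} {Z : Pool.Agent.Y132.EP.DG W Γ} :
    ∀ {A C : List ι} (u : FG.Th A C),
    IsSub (fun i => (X i).toGVar) Z.toGVar C A (FG.twr X Z C).toGVar (FG.twr X Z A).toGVar
      (FG.pr X Z u)
  | _, _, .nil => IsSub.base
  | _, _, .keep i u => IsSub.keep i (isSub_pr u) (Pool.Agent.Y132.EP.isProdVar_prod _ _)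
      (Pool.Agent.Y132.EP.isProdVar_prod _ _)
  | _, _, .skip i u => IsSub.skip i (isSub_pr u) (Pool.Agent.Y132.EP.isProdVar_prod _ _)

/-- **Finite generation**, with the lists of the indices. -/
theorem tate_gen_list {W : WeilCohomology.{u, 0} ops} {Γ : Type} [Group Γ] {χ : Γ →* W.Kˣ}
    [Finite ι] {X : ι → GVar W Γ} {Z : GVar W Γ}
    (hX : ∀ i, FG.GradedVar (X i)) (hZ : FG.GradedVar Z)
    (hss : ∀ i L Y, FG.IsTower X (X i) L Y → FG.SemisimpleVar Y) :
    ∃ N, ∀ L Y, FG.IsTower X Z L Y → ∀ j t, FG.IsTateClass χ Y j t →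
      t ∈ Algebra.adjoin W.K {c | ∃ (L' : List ι) (Y' : GVar W Γ) (p : Y.X ⟶ Y'.X) (j : ℕ)
        (t : W.H Y'.X), L'.length ≤ N ∧ IsSub X Z L L' Y Y' p ∧ FG.IsTateClass χ Y' j t ∧
        c = W.map p t} := by
  let X' : ι → Pool.Agent.Y132.EP.DG W Γ := fun i => ⟨X i, hX i⟩
  let Z' : Pool.Agent.Y132.EP.DG W Γ := ⟨Z, hZ⟩
  have h1 : ∀ i L, FG.SS (FG.twr X' (X' i) L) := fun i L =>
    hss i L _ (FG.isTower_twr X' (X' i) L)
  obtain ⟨N, hN⟩ := FG.main (X := X') (Z := Z') χ h1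
  refine ⟨N, fun L Y hY j t ht => ?_⟩
  have h2 := FG.isTower_unique (X := X') (Z := Z') L hY
  subst h2
  refine (Algebra.adjoin_mono ?_ : FG.adj χ X' Z' N L ≤ _) (hN L j t ht)
  rintro c ⟨A, u, j', t', hA, ht', rfl⟩
  have h3 : IsSub X Z L A (FG.twr X' Z' L).toGVar (FG.twr X' Z' A).toGVar (FG.pr X' Z' u) :=
    isSub_pr (X := X') (Z := Z') u
  exact ⟨A, (FG.twr X' Z' A).toGVar, FG.pr X' Z' u, j', t', hA, h3, ht', rfl⟩

/-- the data of a projection -/
theorem isSub_data {L L' : List ι} {Y Y' : GVar W (FGp W)} {p : Y.X ⟶ Y'.X}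
    (h : IsSub (fun i => actv Ψ (X i)) (actv Ψ Z) L L' Y Y' p) :
    ∃ q : prodList X Z L ⟶ prodList X Z L', IsPr X Z L L' q ∧
      (⟨Y, Y', p⟩ : Σ' (Y Y' : GVar W (FGp W)), Y.X ⟶ Y'.X) =
        ⟨actv Ψ (prodList X Z L), actv Ψ (prodList X Z L'), q⟩ := by
  induction h with
  | base => exact ⟨𝟙 Z, IsPr.base, rfl⟩
  | keep i h0 h1 h2 ih =>
    obtain ⟨q, hq, he⟩ := ih
    cases he
    have h3 := prod_act_eq Ψ h1
    have h4 := prod_act_eq Ψ h2
    subst h3
    subst h4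
    exact ⟨_, IsPr.keep i hq, rfl⟩
  | skip i h0 h1 ih =>
    obtain ⟨q, hq, he⟩ := ih
    cases he
    have h3 := prod_act_eq Ψ h1
    subst h3
    exact ⟨_, IsPr.skip i hq, rfl⟩

section gen

variable {Ψ X Z} {N : ℕ} {L : List ι}

theorem Gen.hodge {j : ℕ} {c : W.H (prodList X Z L)} (h : Gen Ψ X Z N L j c) :
    IsHodge Ψ (prodList X Z L) j c := by
  induction h with
  | pull _ _ hc => exact isHodge_map Ψ _ hc
  | add _ _ ha hb => exact isHodge_add Ψ ha hb
  | smul q _ ha => exact isHodge_smul Ψ q ha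
  | mul _ _ ha hb => exact isHodge_mul Ψ ha hb

theorem Gen.abs {E : Embeddings W}
    (hE : ∀ L : List ι, L.length ≤ N → AllAbsolute Ψ E (prodList X Z L))
    {j : ℕ} {c : W.H (prodList X Z L)} (h : Gen Ψ X Z N L j c) :
    IsAbsHodge Ψ E (prodList X Z L) j c := by
  induction h with
  | pull _ hN hc => exact isAbs_map Ψ E _ (hE _ hN _ _ hc)
  | add _ _ ha hb => exact isAbs_add Ψ E ha hb
  | smul q _ ha => exact isAbs_smul Ψ E q ha
  | mul _ _ ha hb => exact isAbs_mul Ψ E ha hb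

theorem isPr_skip (L : List ι) : ∃ p : prodList X Z L ⟶ prodList X Z [], IsPr X Z L [] p := by
  induction L with
  | nil => exact ⟨_, IsPr.base⟩
  | cons i L ih =>
    obtain ⟨p, hp⟩ := ih
    exact ⟨_, IsPr.skip i hp⟩

theorem gen_one : Gen Ψ X Z N L 0 1 := by
  obtain ⟨p, hp⟩ := isPr_skip (X := X) (Z := Z) L
  have h1 : IsHodge Ψ (prodList X Z []) 0 (1 : W.H (prodList X Z [])) := by
    refine ⟨mem_of_prj (Ψ.isHodgeDec _).isInternal fun i hi => ?_, fun σ => map_one _⟩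
    have h2 : (1 : W.H (prodList X Z [])) ∈ W.gr (prodList X Z []) 0 := by
      rw [W.gr_zero]
      exact Submodule.mem_span_singleton_self 1
    refine hodge_prj_zero (Ψ.isHodgeDec _) (W.isInternal _) h2 fun h3 => hi ?_
    exact Prod.ext (by change i.1 = 0; omega) (by change i.2 = 0; omega)
  have h2 := Gen.pull (N := N) hp (Nat.zero_le _) h1
  rwa [map_one] at h2

theorem gen_zero (j : ℕ) : Gen Ψ X Z N L j 0 := by
  obtain ⟨p, hp⟩ := isPr_skip (X := X) (Z := Z) L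
  have h2 := Gen.pull (N := N) hp (Nat.zero_le _) (isHodge_zero Ψ (prodList X Z []) j)
  rwa [map_zero] at h2

/-- the span of the polynomials is a subalgebra -/
noncomputable def genAlg (Ψ : HodgeData W) {ι : Type} (X : ι → 𝒱.Obj) (Z : 𝒱.Obj) (N : ℕ) (L : List ι) :
    Subalgebra W.K (W.H (prodList X Z L)) :=
  (Submodule.span W.K {c | ∃ j, Gen Ψ X Z N L j c}).toSubalgebra
    (Submodule.subset_span ⟨0, gen_one⟩) (by
      intro a b ha hb
      induction ha using Submodule.span_induction with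
      | mem a ha =>
        obtain ⟨i, ha⟩ := ha
        induction hb using Submodule.span_induction with
        | mem b hb =>
          obtain ⟨j, hb⟩ := hb
          exact Submodule.subset_span ⟨i + j, Gen.mul ha hb⟩
        | zero => rw [mul_zero]; exact Submodule.zero_mem _
        | add x y _ _ hx hy => rw [mul_add]; exact Submodule.add_mem _ hx hy
        | smul r x _ hx => rw [mul_smul_comm]; exact Submodule.smul_mem _ _ hx
      | zero => rw [zero_mul]; exact Submodule.zero_mem _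
      | add x y _ _ hx hy => rw [add_mul]; exact Submodule.add_mem _ hx hy
      | smul r x _ hx => rw [smul_mul_assoc]; exact Submodule.smul_mem _ _ hx)

theorem mem_genAlg {c : W.H (prodList X Z L)} :
    c ∈ genAlg Ψ X Z N L ↔ c ∈ Submodule.span W.K {c | ∃ j, Gen Ψ X Z N L j c} := Iff.rfl

/-- Descent to rational coefficients. -/
theorem gen_of_mem [IsAlgClosed W.K] {j : ℕ} {c : W.H (prodList X Z L)}
    (hc : IsHodge Ψ (prodList X Z L) j c) (h : c ∈ genAlg Ψ X Z N L) : Gen Ψ X Z N L j c := by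
  have h2 := span_graded (P := fun j c => Gen Ψ X Z N L j c)
    (fun j c hc => hodge_gr Ψ hc.hodge) (hodge_gr Ψ hc) h
  exact mem_of_mem_span (γ := fun σ a => Ψ.coeff (prodList X Z L) σ a)
    (S := {c | Gen Ψ X Z N L j c})
    (fun σ a b => map_add _ a b) (Ψ.isCoeffAct _).smul (fun a ha σ => ha.hodge.2 σ)
    (gen_zero j) (fun a ha b hb => Gen.add ha hb) (fun q a ha => Gen.smul q ha) hc.2 h2

end gen

/-- **The Hodge classes on all products with powers are finitely generated.** -/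
theorem hodge_generated [IsAlgClosed W.K] [Finite ι]
    (hX : ∀ i L, SplitHodge (Ψ.on (prodList X (X i) L))) :
    ∃ N, ∀ L j c, IsHodge Ψ (prodList X Z L) j c → Gen Ψ X Z N L j c := by
  obtain ⟨N, hN⟩ := tate_gen_list (χ := hchar W.K) (X := fun i => actv Ψ (X i))
    (Z := actv Ψ Z) (fun i => (actv_galois Ψ (X i)).gr_mem) (actv_galois Ψ Z).gr_mem (by
      intro i L Y hY
      have h1 := isTower_eq' Ψ X (X i) hY
      subst h1
      exact semisimpleVar Ψ (hX i L))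
  refine ⟨N, fun L j c hc => gen_of_mem hc ?_⟩
  refine (Algebra.adjoin_le ?_ : _ ≤ genAlg Ψ X Z N L) (hN L _ (isTower_fg Ψ X Z L) j c
    ⟨hodge_gr Ψ hc, ⊤, inferInstance, fun g _ => hodge_act Ψ hc g⟩)
  rintro _ ⟨L', Y', p, j', t, hL', hsub, ht, rfl⟩
  obtain ⟨q, hq, he⟩ := isSub_data Ψ X Z hsub
  cases he
  obtain ⟨htg, Δ, hΔ, hact⟩ := ht
  have h1 := mem_span_hodge Ψ htg hΔ hact
  rw [SetLike.mem_coe, mem_genAlg]
  refine Submodule.span_induction (p := fun t _ => W.map q t ∈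
    Submodule.span W.K {c | ∃ j, Gen Ψ X Z N L j c}) (fun a ha => ?_) ?_ (fun a b _ _ ha hb => ?_)
    (fun r a _ ha => ?_) h1
  · exact Submodule.subset_span ⟨j', Gen.pull hq hL' ha⟩
  · rw [map_zero]
    exact Submodule.zero_mem _
  · rw [map_add]
    exact Submodule.add_mem _ ha hb
  · rw [map_smul]
    exact Submodule.smul_mem _ _ ha

/-- **Absolute Hodge classes on all products.** -/
theorem absolute_finite [IsAlgClosed W.K] [Finite ι]
    (hX : ∀ i L, SplitHodge (Ψ.on (prodList X (X i) L))) :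
    ∃ N, (∀ L j c, IsHodge Ψ (prodList X Z L) j c → Gen Ψ X Z N L j c) ∧
      ∀ E : Embeddings W, (∀ L, AllAbsolute Ψ E (prodList X Z L)) ↔
        ∀ L : List ι, L.length ≤ N → AllAbsolute Ψ E (prodList X Z L) := by
  obtain ⟨N, hN⟩ := hodge_generated Ψ X Z hX
  exact ⟨N, hN, fun E => ⟨fun h L _ => h L, fun h L j c hc => (hN L j c hc).abs h⟩⟩

end Pool.Agent.Y132.HF
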