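import Pool.Agent.Y132.AH.Full
import Pool.Agent.Y132.HF.Main

/-!
# Full faithfulness of the Hodge realization on the motives of all products of given varieties
-/

open CategoryTheory AlgebraicGeometry

set_option linter.unusedSectionVars false

universe u

namespace Pool.Agent.Y132.HF

open Pool.Agent.Y132.AH Pool.Agent.H914 Pool.Agent.H914.VarClass Pool.Agent.H914.VarClass.Obj
  Pool.Agent.H914.WeilCohomology Pool.Agent.H281R3.HT Pool.Agent.W552 Pool.Agent.TH125.Gal

variable {k : Type u} [Field k] {𝒱 : VarClass k} {ops : CycleOps 𝒱}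
  {W : WeilCohomology.{u, 0} ops} {ι : Type}

/-- The varieties isomorphic to a product of at least one and at most `N + 1` copies of the `X i`. -/
def productsOf (X : ι → 𝒱.Obj) (N : ℕ) : Set 𝒱.Obj :=
  {Y | ∃ (i : ι) (L : List ι), L.length ≤ N ∧ Nonempty (Y ≅ prodList X (X i) L)}

/-- The varieties isomorphic to a product of copies of the `X i`. -/
def allProductsOf (X : ι → 𝒱.Obj) : Set 𝒱.Obj :=
  {Y | ∃ (i : ι) (L : List ι), Nonempty (Y ≅ prodList X (X i) L)}

theorem prodList_append (X : ι → 𝒱.Obj) (Z : 𝒱.Obj) (M : List ι) :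
    ∀ L : List ι, prodList X (prodList X Z M) L = prodList X Z (L ++ M)
  | [] => rfl
  | i :: L => congrArg (fun Y => (X i).prod Y) (prodList_append X Z M L)

variable (Ψ : HodgeData W) (E : Embeddings W) (X : ι → 𝒱.Obj)

theorem full_of_abs' [IsAlgClosed W.K] (h : ∀ i L, AllAbsolute Ψ E (prodList X (X i) L)) :
    FullyFaithfulOn Ψ E (allProductsOf X) := by
  rintro A ⟨i, L, ⟨e⟩⟩ B ⟨j, L', ⟨e'⟩⟩ m n p q hp hq f
  refine ⟨fun hf => motivic_of_hodge ?_ hf, hodge_of_motivic hp hq⟩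
  obtain ⟨e''⟩ := iso_append X (X i) (X j) L L'
  have h1 : prodList X ((X i).prod (X j)) (L ++ L') = prodList X (X j) ((L ++ L') ++ [i]) :=
    prodList_append X (X j) [i] (L ++ L')
  have h2 : AllAbsolute Ψ E (prodList X ((X i).prod (X j)) (L ++ L')) := by
    rw [h1]
    exact h j _
  exact abs_iso Ψ E (prodIso e e' ≪≫ e'').symm h2

/-- **Full faithfulness is a finite problem.** -/
theorem full_finite [IsAlgClosed W.K] [Finite ι]
    (hX : ∀ i L, SplitHodge (Ψ.on (prodList X (X i) L))) :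
    ∃ N, ∀ E : Embeddings W, FullyFaithfulOn Ψ E (allProductsOf X) ↔
      FullyFaithfulOn Ψ E (productsOf X N) := by
  choose N hN hN' using fun i => absolute_finite Ψ X (X i) hX
  obtain ⟨M, hM⟩ : ∃ M, ∀ i, N i ≤ M := by
    obtain ⟨M, hM⟩ := (Set.finite_range N).bddAbove
    exact ⟨M, fun i => hM ⟨i, rfl⟩⟩
  refine ⟨M, fun E => ⟨?_, fun h => ?_⟩⟩
  · rintro h A ⟨i, L, -, e⟩ B ⟨j, L', -, e'⟩
    exact h A ⟨i, L, e⟩ B ⟨j, L', e'⟩
  · refine full_of_abs' Ψ E X fun i => (hN' i E).2 fun L hL => ?_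
    exact abs_of_full Ψ E h ⟨i, L, hL.trans (hM i), ⟨Iso.refl _⟩⟩

end Pool.Agent.Y132.HF
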