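import Pool.Agent.Y132.HF.VDefs

/-!
# Flat algebraic classes on fibre products are finitely generated
-/

open CategoryTheory AlgebraicGeometry

set_option linter.unusedSectionVars false

universe u v

namespace Pool.Agent.Y132.HF

open Pool.Agent.Y132.AH Pool.Agent.H914 Pool.Agent.H914.VarClass Pool.Agent.H914.VarClass.Obj
  Pool.Agent.H914.WeilCohomology Pool.Agent.H281R3.HT Pool.Agent.W552 Pool.Agent.TH125.Gal

variable {k : Type u} [Field k] {𝒱 : VarClass k} {ops : CycleOps 𝒱}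
  {W : WeilCohomology.{u, v} ops} {ι : Type}

/-- corresponding projections -/
inductive IsPr2 (X : ι → 𝒱.Obj) (Z : 𝒱.Obj) (X' : ι → 𝒱.Obj) (Z' : 𝒱.Obj) :
    (L L' : List ι) → (prodList X Z L ⟶ prodList X Z L') →
      (prodList X' Z' L ⟶ prodList X' Z' L') → Prop
  | base : IsPr2 X Z X' Z' [] [] (𝟙 Z) (𝟙 Z')
  | keep (i : ι) {L L' : List ι} {p : prodList X Z L ⟶ prodList X Z L'}
      {p' : prodList X' Z' L ⟶ prodList X' Z' L'} : IsPr2 X Z X' Z' L L' p p' →
      IsPr2 X Z X' Z' (i :: L) (i :: L') (FG.idProd (X i) p) (FG.idProd (X' i) p')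
  | skip (i : ι) {L L' : List ι} {p : prodList X Z L ⟶ prodList X Z L'}
      {p' : prodList X' Z' L ⟶ prodList X' Z' L'} : IsPr2 X Z X' Z' L L' p p' →
      IsPr2 X Z X' Z' (i :: L) L' (FG.sndComp (X i) p) (FG.sndComp (X' i) p')

variable {X : ι → 𝒱.Obj} {Z : 𝒱.Obj} {X' : ι → 𝒱.Obj} {Z' : 𝒱.Obj}

theorem IsPr.diag {L L' : List ι} {p : prodList X Z L ⟶ prodList X Z L'}
    (h : IsPr X Z L L' p) : IsPr2 X Z X Z L L' p p := by
  induction h with
  | base => exact IsPr2.base
  | keep i _ ih => exact IsPr2.keep i ih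
  | skip i _ ih => exact IsPr2.skip i ih

theorem IsPr.exists_pr2 {L L' : List ι} {p : prodList X Z L ⟶ prodList X Z L'}
    (h : IsPr X Z L L' p) (X' : ι → 𝒱.Obj) (Z' : 𝒱.Obj) :
    ∃ p', IsPr2 X Z X' Z' L L' p p' := by
  induction h with
  | base => exact ⟨_, IsPr2.base⟩
  | keep i _ ih =>
    obtain ⟨p', hp'⟩ := ih
    exact ⟨_, IsPr2.keep i hp'⟩
  | skip i _ ih =>
    obtain ⟨p', hp'⟩ := ih
    exact ⟨_, IsPr2.skip i hp'⟩

theorem idProd_fst {A B C : 𝒱.Obj} (p : B ⟶ C) (a : W.H A) :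
    W.map (FG.idProd A p) (W.map (fst A C) a) = W.map (fst A B) a := by
  rw [FG.idProd, ← W.map_comp]
  congr 2
  exact lift_fst _ _

theorem idProd_snd {A B C : 𝒱.Obj} (p : B ⟶ C) (c : W.H C) :
    W.map (FG.idProd A p) (W.map (snd A C) c) = W.map (snd A B) (W.map p c) := by
  rw [FG.idProd, ← W.map_comp, ← W.map_comp]
  congr 2
  exact lift_snd _ _

theorem sndComp_map {A B C : 𝒱.Obj} (p : B ⟶ C) (c : W.H C) :
    W.map (FG.sndComp A p) c = W.map (snd A B) (W.map p c) := by
  rw [FG.sndComp, W.map_comp]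

theorem keep_step {A B C A' B' C' : 𝒱.Obj} (p : B ⟶ C) (p' : B' ⟶ C')
    (T1 : W.H (A.prod B) →ₐ[W.K] W.H (A'.prod B')) (T2 : W.H (A.prod C) →ₐ[W.K] W.H (A'.prod C'))
    (f : W.H A →ₐ[W.K] W.H A') (T3 : W.H B →ₐ[W.K] W.H B') (T4 : W.H C →ₐ[W.K] W.H C')
    (h1 : ∀ a, T1 (W.map (fst A B) a) = W.map (fst A' B') (f a))
    (h2 : ∀ b, T1 (W.map (snd A B) b) = W.map (snd A' B') (T3 b))
    (h3 : ∀ a, T2 (W.map (fst A C) a) = W.map (fst A' C') (f a))
    (h4 : ∀ c, T2 (W.map (snd A C) c) = W.map (snd A' C') (T4 c))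
    (ih : ∀ c, T3 (W.map p c) = W.map p' (T4 c)) (y : W.H (A.prod C)) :
    T1 (W.map (FG.idProd A p) y) = W.map (FG.idProd A' p') (T2 y) := by
  refine W.kunneth_induction (p := fun y => T1 (W.map (FG.idProd A p) y) =
    W.map (FG.idProd A' p') (T2 y)) ?_ ?_ y
  · intro a b ha hb
    rw [map_add, map_add, ha, hb, map_add, map_add]
  · intro m n a _ b _
    rw [map_mul, idProd_fst, idProd_snd, map_mul, h1, h2, ih, map_mul, h3, h4, map_mul,
      idProd_fst, idProd_snd]

theorem skip_step {A B C A' B' C' : 𝒱.Obj} (p : B ⟶ C) (p' : B' ⟶ C')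
    (T1 : W.H (A.prod B) →ₐ[W.K] W.H (A'.prod B'))
    (T3 : W.H B →ₐ[W.K] W.H B') (T4 : W.H C →ₐ[W.K] W.H C')
    (h2 : ∀ b, T1 (W.map (snd A B) b) = W.map (snd A' B') (T3 b))
    (ih : ∀ c, T3 (W.map p c) = W.map p' (T4 c)) (y : W.H C) :
    T1 (W.map (FG.sndComp A p) y) = W.map (FG.sndComp A' p') (T4 y) := by
  rw [sndComp_map, sndComp_map, h2, ih]

theorem base_step {A A' : 𝒱.Obj} (T : W.H A →ₐ[W.K] W.H A') (y : W.H A) :
    T (W.map (𝟙 A) y) = W.map (𝟙 A') (T y) := by
  rw [W.map_id, W.map_id]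

/-- Transport is compatible with the projections. -/
theorem Transport.map (T : Transport W X Z X' Z') {L L' : List ι}
    {p : prodList X Z L ⟶ prodList X Z L'} {p' : prodList X' Z' L ⟶ prodList X' Z' L'}
    (h : IsPr2 X Z X' Z' L L' p p') :
    ∀ b, T.tot L (W.map p b) = W.map p' (T.tot L' b) := by
  induction h with
  | base => exact base_step (T.tot [])
  | keep i _ ih =>
    exact keep_step _ _ (T.tot (i :: _)) (T.tot (i :: _)) (T.fac i) (T.tot _) (T.tot _)
      (T.fst i _) (T.snd i _) (T.fst i _) (T.snd i _) ih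
  | skip i _ ih => exact skip_step _ _ (T.tot (i :: _)) (T.tot _) (T.tot _) (T.snd i _) ih

theorem proj_algSpan {Y : 𝒱.Obj} {a : W.H Y} (ha : a ∈ algSpan W Y) (j : ℕ) :
    proj (W.isInternal Y) j a ∈ algSpan W Y := by
  induction ha using Submodule.span_induction with
  | mem a ha =>
    obtain ⟨i, hi⟩ := Set.mem_iUnion.1 ha
    by_cases hij : 2 * i = j
    · subst hij
      rw [proj_same _ (alg_gr hi)]
      exact Submodule.subset_span ha
    · rw [proj_ne _ (alg_gr hi) hij]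
      exact Submodule.zero_mem _
  | zero => rw [map_zero]; exact Submodule.zero_mem _
  | add x y _ _ hx hy => rw [map_add]; exact Submodule.add_mem _ hx hy
  | smul r x _ hx => rw [map_smul]; exact Submodule.smul_mem _ _ hx

theorem Transport.proj (T : Transport W X Z X' Z') (L : List ι) (j : ℕ)
    (a : W.H (prodList X Z L)) :
    T.tot L (H914.proj (W.isInternal _) j a) = H914.proj (W.isInternal _) j (T.tot L a) := by
  refine gr_induction (W.isInternal _) (p := fun a => T.tot L (H914.proj (W.isInternal _) j a) =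
    H914.proj (W.isInternal _) j (T.tot L a)) ?_ ?_ a
  · intro i a ha
    by_cases hij : i = j
    · subst hij
      rw [proj_same _ ha, proj_same _ (T.degree L i a ha)]
    · rw [proj_ne _ ha hij, proj_ne _ (T.degree L i a ha) hij, map_zero]
  · intro a b ha hb
    rw [map_add, map_add, map_add, map_add, ha, hb]

/-- the subalgebra of the flat algebraic classes -/
def Families.flatAlg (F : Families W ι) (o : F.S) (L : List ι) :
    Subalgebra W.K (W.H (F.fib o L)) where
  carrier := {c | F.IsFlatAlg o L c}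
  mul_mem' ha hb := ⟨algSpan_mul ha.1 hb.1, fun g => by rw [map_mul, ha.2, hb.2]⟩
  add_mem' ha hb := ⟨Submodule.add_mem _ ha.1 hb.1, fun g => by rw [map_add, ha.2, hb.2]⟩
  algebraMap_mem' r := ⟨by
    rw [Algebra.algebraMap_eq_smul_one]
    exact Submodule.smul_mem _ _ algSpan_one, fun g => AlgHom.commutes _ _⟩

/-- The flat algebraic classes. -/
theorem Families.ndFamily (F : Families W ι) (o : F.S) (h : F.HomNum o) :
    NdFamily W (F.X o) (F.Z o) (F.flatAlg o) where
  map {L L' p} hp b hb := ⟨algSpan_map p hb.1, fun g => by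
    rw [(F.tr g).map hp.diag, hb.2 g]⟩
  graded L a ha := by
    have h1 : a = ∑ j ∈ Finset.range (2 * (F.fib o L).dim + 1),
        H914.proj (W.isInternal _) j a := by
      have h2 := sum_proj (W.isInternal (F.fib o L)) (N := 2 * (F.fib o L).dim + 1)
        fun i hi => W.gr_eq_bot _ i (by omega)
      have h3 := congrArg (fun f => f a) h2
      simp only [LinearMap.sum_apply, Module.End.one_apply] at h3
      exact h3.symm
    rw [h1]
    refine Submodule.sum_mem _ fun j _ => Submodule.mem_iSup_of_mem j ⟨⟨proj_algSpan ha.1 j,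
      fun g => ?_⟩, proj_mem _ _ _⟩
    rw [(F.tr g).proj, ha.2 g]
  nondeg L a ha hb := h L a ha hb

theorem vhc_of_gen (F : Families W ι) {o s : F.S} {N : ℕ} {L : List ι} (h : F.GenBy o N L)
    (hs : ∀ L : List ι, L.length ≤ N → F.VHC L o s) : F.VHC L o s := by
  intro c hc γ
  rw [h] at hc
  induction hc using Algebra.adjoin_induction with
  | mem c hc =>
    obtain ⟨L', p, b, hp, hN, hb, rfl⟩ := hc
    obtain ⟨p', hp'⟩ := hp.exists_pr2 (F.X s) (F.Z s)
    rw [(F.tr γ).map hp']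
    exact algSpan_map _ (hs L' hN b hb γ)
  | algebraMap r =>
    rw [AlgHom.commutes, Algebra.algebraMap_eq_smul_one]
    exact Submodule.smul_mem _ _ algSpan_one
  | add x y _ _ hx hy => rw [map_add]; exact Submodule.add_mem _ hx hy
  | mul x y _ _ hx hy => rw [map_mul]; exact algSpan_mul hx hy

/-- **The variational Hodge conjecture for all fibre products.** -/
theorem vhc_finite [Finite ι] (F : Families W ι) (o : F.S) (h : F.HomNum o) :
    ∃ N, (∀ L, F.GenBy o N L) ∧ ∀ s, (∀ L, F.VHC L o s) ↔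
      ∀ L : List ι, L.length ≤ N → F.VHC L o s := by
  obtain ⟨N, hN⟩ := nd_generated (F.ndFamily o h)
  have h1 : ∀ L, F.GenBy o N L := fun L c => by
    have h2 : c ∈ F.flatAlg o L ↔ c ∈ smallAlg W (F.X o) (F.Z o) (F.flatAlg o) N L := by
      rw [← hN L]
    exact h2
  exact ⟨N, h1, fun s => ⟨fun h L _ => h L, fun h L => vhc_of_gen F (h1 L) h⟩⟩

end Pool.Agent.Y132.HF
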