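import Pool.Agent.Y132.HF.NCDefs
import Pool.Agent.Y132.HF.VMain

/-!
# The noncommutative variational Hodge conjecture on fibre products
-/

open CategoryTheory AlgebraicGeometry

set_option linter.unusedSectionVars false

universe u v

namespace Pool.Agent.Y132.HF

open Pool.Agent.Y132.AH Pool.Agent.H914 Pool.Agent.H914.VarClass Pool.Agent.H914.VarClass.Obj
  Pool.Agent.H914.WeilCohomology Pool.Agent.H281R3.HT Pool.Agent.W552
  Pool.Agent.TH125.Gal

variable {k : Type u} [Field k] {𝒱 : VarClass k} {ops : CycleOps 𝒱}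
  {W : WeilCohomology.{u, v} ops} {ι : Type}

variable {F : Families W ι} {L : List ι}

theorem opOf_eq {X : 𝒱.Obj} (E : W.H (X.prod X)) (x : W.H X) : opOf W X E x = W.corr E x := by
  rw [W.corr_apply]
  rfl

/-- The operator on the cohomology of `X`. -/
noncomputable abbrev Kernel.op {X : 𝒱.Obj} (C : Kernel W X) : W.H X → W.H X := opOf W X C.cls

theorem Kernel.op_algSpan {X : 𝒱.Obj} (C : Kernel W X) {x : W.H X} (hx : x ∈ algSpan W X) :
    C.op x ∈ algSpan W X := by
  change W.push (snd X X) (C.cls * W.map (fst X X) x) ∈ algSpan W X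
  exact algSpan_push _ (algSpan_mul C.algebraic (algSpan_map _ hx))

theorem corr_one_diag {X : 𝒱.Obj} (x : W.H X) : opOf W X (W.push X.diag 1) x = x := by
  rw [opOf_eq, W.corr_diag, one_mul]

/-- The kernel of the category of all perfect complexes: the diagonal. -/
noncomputable def diagKernel (W : WeilCohomology.{u, v} ops) (X : 𝒱.Obj) : Kernel W X where
  cls := W.push X.diag 1
  algebraic := algSpan_push _ algSpan_one
  idempotent x := by rw [corr_one_diag, corr_one_diag]

theorem diagKernel_op {X : 𝒱.Obj} (x : W.H X) : opOf W X (diagKernel W X).cls x = x :=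
  corr_one_diag x

/-- The category of all perfect complexes. -/
noncomputable def Families.whole (F : Families W ι) (L : List ι) : F.Subcat L where
  ker s := diagKernel W (F.fib s L)
  flat γ x := by rw [diagKernel_op, diagKernel_op]

theorem vhc_of_whole (L : List ι) {o s : F.S} (h : (F.whole L).VHC o s) : F.VHC L o s := by
  intro c hc γ
  obtain ⟨z, hz, hzc⟩ := h c ⟨c, hc.1, diagKernel_op c⟩ hc.2 γ
  have h2 : opOf W (F.fib s L) ((F.whole L).ker s).cls z = z := corr_one_diag z
  rw [← hzc, h2]
  exact hz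

theorem Families.Subcat.vhc_of_vhc (C : F.Subcat L) {o s : F.S} (h : F.VHC L o s) : C.VHC o s := by
  rintro x ⟨z, hz, rfl⟩ hx γ
  refine ⟨(F.tr γ).tot L ((C.ker o).op z), h _ ⟨(C.ker o).op_algSpan hz, hx⟩ γ, ?_⟩
  rw [← C.flat γ]
  congr 1
  exact (C.ker o).idempotent z

/-- **Noncommutative variational Hodge for all fibre products is a finite problem.** -/
theorem nc_vhc_finite [Finite ι] (F : Families W ι) (o : F.S) (h : F.HomNum o) :
    ∃ N : ℕ, (∀ L : List ι, F.GenBy o N L) ∧ ∀ s : F.S,
      ((∀ L (C : F.Subcat L), C.VHC o s) ↔ ∀ L : List ι, L.length ≤ N → F.VHC L o s) := by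
  obtain ⟨N, hN, hs⟩ := vhc_finite F o h
  refine ⟨N, hN, fun s => ⟨fun h L _ => vhc_of_whole L (h L (F.whole L)), fun h L C => ?_⟩⟩
  exact C.vhc_of_vhc ((hs s).2 h L)

end Pool.Agent.Y132.HF
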