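import Pool.Agent.Y132.HF.VDefs

/-!
# The noncommutative variational Hodge conjecture on fibre products: definitions
-/

universe u v

namespace Pool.Agent.Y132.HF

open Pool.Agent.H914 Pool.Agent.H914.VarClass.Obj

variable {k : Type u} [Field k] {𝒱 : VarClass k} {ops : CycleOps 𝒱}

/-- The map `f` is idempotent. -/
def IdemMap {α : Type*} (f : α → α) : Prop := ∀ x, f (f x) = f x

/-- The operator `x ↦ pr₂_* (E · pr₁^* x)` of the class `E` on `X × X`. -/
noncomputable def opOf (W : WeilCohomology.{u, v} ops) (X : 𝒱.Obj) (E : W.H (X.prod X))
    (x : W.H X) : W.H X := W.push (snd X X) (E * W.map (fst X X) x)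

/-- An idempotent kernel on `X`: a linear combination of classes of algebraic cycles on `X × X` (of all
codimensions) whose operator on the cohomology of `X` is idempotent. The kernel of the projection
functor onto an admissible subcategory of the category of perfect complexes on `X` has such a class
(its Mukai vector), and the image of the operator is the topological K-theory of the subcategory. -/
structure Kernel (W : WeilCohomology.{u, v} ops) (X : 𝒱.Obj) where
  /-- the class on `X × X` -/
  cls : W.H (X.prod X)
  algebraic : IsAlgCls W (X.prod X) cls
  idempotent : IdemMap (opOf W X cls)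

/-- The class `x` is algebraic for the subcategory, that is, it comes from its Grothendieck group: it
is the projection of a linear combination of classes of algebraic cycles on `X`. -/
def Kernel.IsAlgebraic {W : WeilCohomology.{u, v} ops} {X : 𝒱.Obj} (C : Kernel W X)
    (x : W.H X) : Prop :=
  ∃ z, IsAlgCls W X z ∧ opOf W X C.cls z = x

/-- The operators of the kernels `C` and `D` are compatible with the homomorphism `T`. -/
def Kernel.Comm {W : WeilCohomology.{u, v} ops} {X Y : 𝒱.Obj} (C : Kernel W X) (D : Kernel W Y)
    (T : HomH W X Y) : Prop :=
  ∀ x, T (opOf W X C.cls x) = opOf W Y D.cls (T x)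

variable {W : WeilCohomology.{u, v} ops} {ι : Type}

/-- The cohomological data of an admissible subcategory, linear over the base, of the category of
perfect complexes on the fibre product for the list `L`: for each point `s` an idempotent kernel on
the fibre over `s`; the operators are compatible with parallel transport. -/
structure Families.Subcat (F : Families W ι) (L : List ι) where
  /-- the kernel on the fibre over `s` -/
  ker : ∀ s : F.S, Kernel W (F.fib s L)
  flat : ∀ {s t : F.S} (γ : F.path s t), (ker s).Comm (ker t) ((F.tr γ).tot L)

/-- The noncommutative variational Hodge conjecture for the subcategory and the points `o`, `s`: if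
`x` is a class of the fibre over `o` which is fixed by the monodromy and algebraic then its transports
to the fibre over `s` are algebraic. -/
def Families.Subcat.VHC {F : Families W ι} {L : List ι} (C : F.Subcat L) (o s : F.S) : Prop :=
  ∀ x, (C.ker o).IsAlgebraic x → (∀ g : F.path o o, (F.tr g).tot L x = x) →
    ∀ γ : F.path o s, (C.ker s).IsAlgebraic ((F.tr γ).tot L x)

end Pool.Agent.Y132.HF
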