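import Pool.Agent.Y132.FG.Main
import Pool.Agent.Y132.HF.Defs

/-!
# Families of subalgebras with nondegenerate pairings on products are finitely generated
-/

open CategoryTheory AlgebraicGeometry

set_option linter.unusedSectionVars false

universe u v

namespace Pool.Agent.Y132.HF

open Pool.Agent.Y132.AH Pool.Agent.H914 Pool.Agent.H914.VarClass Pool.Agent.H914.VarClass.Obj
  Pool.Agent.H914.WeilCohomology Pool.Agent.H281R3.HT Pool.Agent.W552 Pool.Agent.TH125.Gal
  Pool.Agent.Y132.EP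

section reynolds

variable {K A : Type*} [Field K] [Ring A] [Algebra K A]

/-- The projection to a subalgebra on which the trace form is not degenerate. -/
theorem exists_reynolds (D : Subalgebra K A) [FiniteDimensional K D] (tr : A →ₗ[K] K)
    (hnd : ∀ a ∈ D, (∀ b ∈ D, tr (a * b) = 0) → a = 0) :
    ∃ R : A →ₗ[K] A, (∀ x, R x ∈ D) ∧ (∀ d ∈ D, R d = d) ∧ ∀ x, ∀ d ∈ D, R (x * d) = R x * d := by
  let F : A →ₗ[K] Module.Dual K D :=
    { toFun := fun x =>
        { toFun := fun b => tr (x * (b : A))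
          map_add' := fun b c => by rw [D.coe_add, mul_add, map_add]
          map_smul' := fun r b => by
            rw [D.coe_smul, mul_smul_comm, map_smul, RingHom.id_apply] }
      map_add' := fun x y => LinearMap.ext fun b => by
        change tr ((x + y) * (b : A)) = tr (x * b) + tr (y * b)
        rw [add_mul, map_add]
      map_smul' := fun r x => LinearMap.ext fun b => by
        change tr ((r • x) * (b : A)) = r • tr (x * b)
        rw [smul_mul_assoc, map_smul] }
  let G : D →ₗ[K] Module.Dual K D := F ∘ₗ D.val.toLinearMap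
  have hF : ∀ x (b : D), F x b = tr (x * (b : A)) := fun x b => rfl
  have hinj : Function.Injective G := by
    rw [injective_iff_map_eq_zero]
    intro a ha
    apply Subtype.ext
    refine hnd a a.2 fun b hb => ?_
    have h1 := congrArg (fun f : Module.Dual K D => f ⟨b, hb⟩) ha
    exact h1
  let e : D ≃ₗ[K] Module.Dual K D :=
    LinearEquiv.ofInjectiveOfFinrankEq G hinj (Subspace.dual_finrank_eq).symm
  let R : A →ₗ[K] A := D.val.toLinearMap ∘ₗ e.symm.toLinearMap ∘ₗ F
  have hR : ∀ x, ∀ b ∈ D, tr (R x * b) = tr (x * b) := by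
    intro x b hb
    have h1 : e (e.symm (F x)) = F x := e.apply_symm_apply _
    have h2 := congrArg (fun f : Module.Dual K D => f ⟨b, hb⟩) h1
    exact h2
  have hmem : ∀ x, R x ∈ D := fun x => (e.symm (F x)).2
  have huniq : ∀ a ∈ D, ∀ a' ∈ D, (∀ b ∈ D, tr (a * b) = tr (a' * b)) → a = a' := by
    intro a ha a' ha' h
    rw [← sub_eq_zero]
    refine hnd _ (D.sub_mem ha ha') fun b hb => ?_
    rw [sub_mul, map_sub, h b hb, sub_self]
  refine ⟨R, hmem, fun d hd => huniq _ (hmem d) _ hd fun b hb => hR d b hb, fun x d hd => ?_⟩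
  refine huniq _ (hmem _) _ (D.mul_mem (hmem x) hd) fun b hb => ?_
  rw [hR _ b hb, mul_assoc, mul_assoc, hR x _ (D.mul_mem hd hb)]

end reynolds

variable {k : Type u} [Field k] {𝒱 : VarClass k} {ops : CycleOps 𝒱}
  {W : WeilCohomology.{u, v} ops} {ι : Type}

/-- an object with the trivial action of the trivial group -/
noncomputable abbrev dgt (W : WeilCohomology.{u, v} ops) (Y : 𝒱.Obj) : DG W Unit :=
  ⟨⟨Y, 1⟩, fun _ _ _ ha => ha⟩

/-- The projections, with the lists of the indices. -/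
inductive IsT (X : ι → 𝒱.Obj) (Z : 𝒱.Obj) :
    (L L' : List ι) → (Y Y' : 𝒱.Obj) → (Y ⟶ Y') → Prop
  | base : IsT X Z [] [] Z Z (𝟙 Z)
  | keep (i : ι) {L L' : List ι} {Y Y' : 𝒱.Obj} {p : Y ⟶ Y'} :
      IsT X Z L L' Y Y' p →
      IsT X Z (i :: L) (i :: L') ((X i).prod Y) ((X i).prod Y') (FG.idProd (X i) p)
  | skip (i : ι) {L L' : List ι} {Y Y' : 𝒱.Obj} {p : Y ⟶ Y'} :
      IsT X Z L L' Y Y' p →
      IsT X Z (i :: L) L' ((X i).prod Y) Y' (FG.sndComp (X i) p)

variable {X : ι → 𝒱.Obj} {Z : 𝒱.Obj}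

theorem isT_pr : ∀ {A C : List ι} (u : FG.Th A C),
    IsT X Z C A (FG.twr (fun i => dgt W (X i)) (dgt W Z) C).X
      (FG.twr (fun i => dgt W (X i)) (dgt W Z) A).X (FG.pr (fun i => dgt W (X i)) (dgt W Z) u)
  | _, _, .nil => IsT.base
  | _, _, .keep i u => IsT.keep i (isT_pr u)
  | _, _, .skip i u => IsT.skip i (isT_pr u)

theorem twr_eq : ∀ C : List ι,
    (FG.twr (fun i => dgt W (X i)) (dgt W Z) C).X = prodList X Z C
  | [] => rfl
  | i :: C => congrArg (fun Y => (X i).prod Y) (twr_eq C)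

theorem isT_data {L L' : List ι} {Y Y' : 𝒱.Obj} {p : Y ⟶ Y'} (h : IsT X Z L L' Y Y' p) :
    ∃ q : prodList X Z L ⟶ prodList X Z L', IsPr X Z L L' q ∧
      (⟨Y, Y', p⟩ : Σ' (Y Y' : 𝒱.Obj), Y ⟶ Y') = ⟨prodList X Z L, prodList X Z L', q⟩ := by
  induction h with
  | base => exact ⟨𝟙 Z, IsPr.base, rfl⟩
  | keep i h0 ih =>
    obtain ⟨q, hq, he⟩ := ih
    cases he
    exact ⟨_, IsPr.keep i hq, rfl⟩
  | skip i h0 ih =>
    obtain ⟨q, hq, he⟩ := ih
    cases he
    exact ⟨_, IsPr.skip i hq, rfl⟩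

/-- **The Noetherian property** for products of objects. -/
theorem exists_gen_obj [Finite ι] (S : ∀ A : List ι, Set (W.H (prodList X Z A))) :
    ∃ N, ∀ C, ∀ t ∈ S C, t ∈ Submodule.span W.K {y | ∃ (A : List ι)
      (q : prodList X Z C ⟶ prodList X Z A) (x : W.H (prodList X Z C)) (s : W.H (prodList X Z A)),
      IsPr X Z C A q ∧ A.length ≤ N ∧ s ∈ S A ∧ y = x * W.map q s} := by
  obtain ⟨N, hN⟩ := FG.exists_gen (X := fun i => dgt W (X i)) (Z := dgt W Z)
    (fun A => {t | ∃ t' ∈ S A, HEq t t'})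
  refine ⟨N, fun C => ?_⟩
  have key : ∀ Y : 𝒱.Obj, (FG.twr (fun i => dgt W (X i)) (dgt W Z) C).X = Y →
      ∀ t : W.H Y, (∃ t' ∈ S C, HEq t t') → t ∈ Submodule.span W.K
        {y | ∃ (A : List ι) (Y' : 𝒱.Obj) (p : Y ⟶ Y') (x : W.H Y) (s : W.H Y'),
          IsT X Z C A Y Y' p ∧ A.length ≤ N ∧ (∃ s' ∈ S A, HEq s s') ∧ y = x * W.map p s} := by
    rintro _ rfl t ht
    refine Submodule.span_mono ?_ (hN C ht)
    rintro y ⟨A, u, hA, x, -, s, hs, rfl⟩
    exact ⟨A, _, _, x, s, isT_pr u, hA, hs, rfl⟩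
  intro t ht
  refine Submodule.span_mono ?_ (key _ (twr_eq C) t ⟨t, ht, HEq.rfl⟩)
  rintro y ⟨A, Y', p, x, s, hT, hA, ⟨s', hs', he'⟩, rfl⟩
  obtain ⟨q, hq, he⟩ := isT_data hT
  cases he
  cases he'
  exact ⟨A, q, x, s', hq, hA, hs', rfl⟩

/-- `D` is a family of graded subalgebras of the cohomology of the products, stable under pull-backs by
projections, such that the intersection pairing on each of them is not degenerate. -/
structure NdFamily (W : WeilCohomology.{u, v} ops) {ι : Type} (X : ι → 𝒱.Obj) (Z : 𝒱.Obj)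
    (D : ∀ L : List ι, Subalgebra W.K (W.H (prodList X Z L))) : Prop where
  map : ∀ {L L' : List ι} {p : prodList X Z L ⟶ prodList X Z L'}, IsPr X Z L L' p →
    ∀ b ∈ D L', W.map p b ∈ D L
  graded : ∀ L, Subalgebra.toSubmodule (D L) ≤
    ⨆ j, Subalgebra.toSubmodule (D L) ⊓ W.gr (prodList X Z L) j
  nondeg : ∀ L, ∀ a ∈ D L, (∀ b ∈ D L, W.tr (prodList X Z L) (a * b) = 0) → a = 0

/-- The subalgebra generated by the pull-backs of the members of the family on the products of `Z`
with at most `N` of the factors. -/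
noncomputable def smallAlg (W : WeilCohomology.{u, v} ops) {ι : Type} (X : ι → 𝒱.Obj) (Z : 𝒱.Obj)
    (D : ∀ L : List ι, Subalgebra W.K (W.H (prodList X Z L))) (N : ℕ) (L : List ι) :
    Subalgebra W.K (W.H (prodList X Z L)) :=
  Algebra.adjoin W.K {c | ∃ (L' : List ι) (p : prodList X Z L ⟶ prodList X Z L')
    (b : W.H (prodList X Z L')), IsPr X Z L L' p ∧ L'.length ≤ N ∧ b ∈ D L' ∧ c = W.map p b}

variable {D : ∀ L : List ι, Subalgebra W.K (W.H (prodList X Z L))}

theorem NdFamily.proj_mem (h : NdFamily W X Z D) {L : List ι} {a : W.H (prodList X Z L)}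
    (ha : a ∈ D L) (j : ℕ) : proj (W.isInternal (prodList X Z L)) j a ∈ D L := by
  have h1 := h.graded L ha
  refine Submodule.iSup_induction (p := fun j => Subalgebra.toSubmodule (D L) ⊓
    W.gr (prodList X Z L) j) (motive := fun a => proj (W.isInternal (prodList X Z L)) j a ∈ D L)
    h1 ?_ ?_ ?_
  · intro i x hx
    by_cases hij : i = j
    · subst hij
      rw [proj_same _ hx.2]
      exact hx.1
    · rw [proj_ne _ hx.2 hij]
      exact (D L).zero_mem
  · rw [map_zero]
    exact (D L).zero_mem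
  · intro x y hx hy
    rw [map_add]
    exact (D L).add_mem hx hy

theorem mem_smallAlg_gr [Finite ι] (h : NdFamily W X Z D) {N : ℕ}
    (hN : ∀ C, ∀ t : W.H (prodList X Z C), (t ∈ D C ∧ ∃ n, 0 < n ∧ t ∈ W.gr (prodList X Z C) n) →
      t ∈ Submodule.span W.K {y | ∃ (A : List ι)
      (q : prodList X Z C ⟶ prodList X Z A) (x : W.H (prodList X Z C)) (s : W.H (prodList X Z A)),
      IsPr X Z C A q ∧ A.length ≤ N ∧
        (s ∈ D A ∧ ∃ n, 0 < n ∧ s ∈ W.gr (prodList X Z A) n) ∧ y = x * W.map q s})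
    (C : List ι) (j : ℕ) : ∀ t ∈ D C, t ∈ W.gr (prodList X Z C) j → t ∈ smallAlg W X Z D N C := by
  induction j using Nat.strong_induction_on with
  | _ j ih =>
    intro t ht htj
    by_cases hj : j = 0
    · subst hj
      rw [W.gr_zero] at htj
      obtain ⟨r, rfl⟩ := Submodule.mem_span_singleton.1 htj
      exact Subalgebra.smul_mem _ (Subalgebra.one_mem _) r
    · obtain ⟨R, hR1, hR2, hR3⟩ := exists_reynolds (D C) (W.tr (prodList X Z C)) (h.nondeg C)
      have h1 := hN C t ⟨ht, j, Nat.pos_of_ne_zero hj, htj⟩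
      have h2 : proj (W.isInternal (prodList X Z C)) j (R t) ∈ smallAlg W X Z D N C := by
        refine Submodule.span_induction (p := fun t _ =>
          proj (W.isInternal (prodList X Z C)) j (R t) ∈ smallAlg W X Z D N C) ?_ ?_ ?_ ?_ h1
        · rintro y ⟨A, q, x, s, hq, hA, ⟨hsD, n, hn, hsn⟩, rfl⟩
          have hqs : W.map q s ∈ D C := h.map hq s hsD
          have hqn : W.map q s ∈ W.gr (prodList X Z C) n := W.map_mem q hsn
          rw [hR3 x _ hqs]
          by_cases hnj : n ≤ j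
          · obtain ⟨m, rfl⟩ := Nat.exists_eq_add_of_le' hnj
            rw [FG.proj_mul hqn]
            refine Subalgebra.mul_mem _ (ih m (by omega) _ (h.proj_mem (hR1 x) m)
              (proj_mem _ _ _)) (Algebra.subset_adjoin ⟨A, q, s, hq, hA, hsD, rfl⟩)
          · rw [FG.proj_mul_lt hqn (by omega)]
            exact Subalgebra.zero_mem _
        · rw [map_zero, map_zero]
          exact Subalgebra.zero_mem _
        · intro x y _ _ hx hy
          rw [map_add, map_add]
          exact Subalgebra.add_mem _ hx hy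
        · intro r x _ hx
          rw [map_smul, map_smul]
          exact Subalgebra.smul_mem _ hx r
      rwa [hR2 t ht, proj_same _ htj] at h2

/-- **Finite generation.** -/
theorem nd_generated [Finite ι] (h : NdFamily W X Z D) :
    ∃ N, ∀ L, D L = smallAlg W X Z D N L := by
  obtain ⟨N, hN⟩ := exists_gen_obj (W := W) (X := X) (Z := Z)
    (fun A => {t | t ∈ D A ∧ ∃ n, 0 < n ∧ t ∈ W.gr (prodList X Z A) n})
  refine ⟨N, fun L => le_antisymm (fun t ht => ?_) (Algebra.adjoin_le ?_)⟩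
  · refine Submodule.iSup_induction (p := fun j => Subalgebra.toSubmodule (D L) ⊓
      W.gr (prodList X Z L) j) (motive := fun a => a ∈ smallAlg W X Z D N L)
      (h.graded L ht) ?_ (Subalgebra.zero_mem _) fun x y hx hy => Subalgebra.add_mem _ hx hy
    intro j x hx
    exact mem_smallAlg_gr h hN L j x hx.1 hx.2
  · rintro c ⟨L', p, b, hp, -, hb, rfl⟩
    exact h.map hp b hb

end Pool.Agent.Y132.HF
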