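import Pool.Agent.Y132.HF.Nd
import Pool.Agent.TH125.Gal.Diag

/-!
# Parallel transport on fibre products: definitions
-/

universe u v

namespace Pool.Agent.Y132.HF

open Pool.Agent.Y132.AH Pool.Agent.H914 Pool.Agent.H914.VarClass.Obj Pool.Agent.H281R3.HT

variable {k : Type u} [Field k] {𝒱 : VarClass k} {ops : CycleOps 𝒱}

/-- The class `a` is a linear combination of classes of algebraic cycles. -/
def IsAlgCls (W : WeilCohomology.{u, v} ops) (X : 𝒱.Obj) (a : W.H X) : Prop := a ∈ algSpan W X

/-- The algebra homomorphisms from the cohomology of `A` to the cohomology of `B`. -/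
abbrev HomH (W : WeilCohomology.{u, v} ops) (A B : 𝒱.Obj) : Type _ := W.H A →ₐ[W.K] W.H B

/-- The homomorphism `T` preserves the degrees. -/
def PresDeg {W : WeilCohomology.{u, v} ops} {A B : 𝒱.Obj} (T : HomH W A B) : Prop :=
  ∀ j, ∀ a ∈ W.gr A j, T a ∈ W.gr B j

/-- The homomorphism `T` for `A × B` and `A' × B'` is compatible with the homomorphism `f` for `A`
and `A'`. -/
def CompFst {W : WeilCohomology.{u, v} ops} {A B A' B' : 𝒱.Obj}
    (T : HomH W (A.prod B) (A'.prod B')) (f : HomH W A A') : Prop :=
  ∀ a, T (W.map (fst A B) a) = W.map (fst A' B') (f a)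

/-- The homomorphism `T` for `A × B` and `A' × B'` is compatible with the homomorphism `f` for `B`
and `B'`. -/
def CompSnd {W : WeilCohomology.{u, v} ops} {A B A' B' : 𝒱.Obj}
    (T : HomH W (A.prod B) (A'.prod B')) (f : HomH W B B') : Prop :=
  ∀ b, T (W.map (snd A B) b) = W.map (snd A' B') (f b)

/-- The formal properties of the parallel transport, along a path in the base `S`, from the
cohomology of the fibres `X i`, `Z` of families over `S` and of their products to the cohomology of
other fibres `X' i`, `Z'` and of their products: algebra homomorphisms which preserve the degrees and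
are compatible with the projections. -/
structure Transport (W : WeilCohomology.{u, v} ops) {ι : Type} (X : ι → 𝒱.Obj) (Z : 𝒱.Obj)
    (X' : ι → 𝒱.Obj) (Z' : 𝒱.Obj) where
  /-- the transport on the factors -/
  fac : ∀ i, HomH W (X i) (X' i)
  /-- the transport on the products -/
  tot : ∀ L : List ι, HomH W (prodList X Z L) (prodList X' Z' L)
  degree : ∀ L, PresDeg (tot L)
  fst : ∀ i L, CompFst (A := X i) (B := prodList X Z L) (tot (i :: L)) (fac i)
  snd : ∀ i L, CompSnd (A := X i) (B := prodList X Z L) (tot (i :: L)) (tot L)

/-- Families `X i` and `Z` of varieties over a base: the fibres over the points `s`, and the parallel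
transport along the homotopy classes of paths from `s` to `t`. -/
structure Families (W : WeilCohomology.{u, v} ops) (ι : Type) where
  /-- the points of the base -/
  S : Type
  /-- the fibres of the families `X i` -/
  X : S → ι → 𝒱.Obj
  /-- the fibres of the family `Z` -/
  Z : S → 𝒱.Obj
  /-- the homotopy classes of paths -/
  path : S → S → Type
  /-- parallel transport -/
  tr : ∀ {s t : S}, path s t → Transport W (X s) (Z s) (X t) (Z t)

variable {W : WeilCohomology.{u, v} ops} {ι : Type}

/-- The fibre over `s` of the fibre product of `Z` and the `X i` for the entries `i` of `L`. -/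
noncomputable abbrev Families.fib (F : Families W ι) (s : F.S) (L : List ι) : 𝒱.Obj :=
  prodList (F.X s) (F.Z s) L

/-- `c` is a flat algebraic class on the fibre over `o`: a linear combination of classes of algebraic
cycles which is fixed by the monodromy. -/
def Families.IsFlatAlg (F : Families W ι) (o : F.S) (L : List ι) (c : W.H (F.fib o L)) : Prop :=
  IsAlgCls W (F.fib o L) c ∧ ∀ g : F.path o o, (F.tr g).tot L c = c

/-- Homological and numerical equivalence coincide for the flat algebraic classes on the fibre
products over `o`: if the intersection numbers of `a` with all flat algebraic classes are zero then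
`a = 0`. -/
def Families.HomNum (F : Families W ι) (o : F.S) : Prop :=
  ∀ L a, F.IsFlatAlg o L a → (∀ b, F.IsFlatAlg o L b → W.tr (F.fib o L) (a * b) = 0) → a = 0

/-- The variational Hodge conjecture for the fibre product for the list `L` and the points `o`, `s`:
the transports to the fibre over `s` of the flat algebraic classes on the fibre over `o` are
algebraic. -/
def Families.VHC (F : Families W ι) (L : List ι) (o s : F.S) : Prop :=
  ∀ c, F.IsFlatAlg o L c → ∀ γ : F.path o s, IsAlgCls W (F.fib s L) ((F.tr γ).tot L c)

/-- The flat algebraic classes on the fibre product for the list `L` are generated by the pull-backs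
of the flat algebraic classes on the fibre products of `Z` with at most `N` of the factors. -/
def Families.GenBy (F : Families W ι) (o : F.S) (N : ℕ) (L : List ι) : Prop :=
  ∀ c, F.IsFlatAlg o L c ↔ c ∈ Algebra.adjoin W.K
    {c | ∃ L' p b, IsPr (F.X o) (F.Z o) L L' p ∧ L'.length ≤ N ∧ F.IsFlatAlg o L' b ∧
      c = W.map p b}

end Pool.Agent.Y132.HF
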